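import Pool.Agent.W448.FF.Stmts

/-!
Project FF (MP_466853_co), part TH: the double threshold property.
-/

set_option autoImplicit false

namespace Pool.Agent.W327.FF

open Finset
open Pool.Agent.W448.FF

theorem o_nonneg {V : Type} (G : OG V) (u v : V) : 0 ≤ o G u v := by
  unfold o; split_ifs <;> norm_num

theorem o_le_one {V : Type} (G : OG V) (u v : V) : o G u v ≤ 1 := by
  unfold o; split_ifs <;> norm_num

theorem nn_nonneg {V : Type} (G : OG V) (u v : V) : 0 ≤ nn G u v := by
  unfold nn; split_ifs <;> norm_num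

theorem nn_le_one {V : Type} (G : OG V) (u v : V) : nn G u v ≤ 1 := by
  unfold nn; split_ifs <;> norm_num

theorem dI_mono {V : Type} (G : OG V) {w : V → ℝ} (hw : ∀ v, 0 ≤ w v) {A' A : Finset V}
    (h : A' ⊆ A) : dI G w A' ≤ dI G w A := by
  unfold dI
  have hterm : ∀ u v, 0 ≤ w u * w v * (1 - nn G u v) := fun u v =>
    mul_nonneg (mul_nonneg (hw u) (hw v)) (sub_nonneg.2 (nn_le_one G u v))
  calc ∑ u ∈ A', ∑ v ∈ A', w u * w v * (1 - nn G u v)
      ≤ ∑ u ∈ A', ∑ v ∈ A, w u * w v * (1 - nn G u v) :=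
        sum_le_sum fun u _ => sum_le_sum_of_subset_of_nonneg h fun v _ _ => hterm u v
    _ ≤ ∑ u ∈ A, ∑ v ∈ A, w u * w v * (1 - nn G u v) :=
        sum_le_sum_of_subset_of_nonneg h fun u _ _ => sum_nonneg fun v _ => hterm u v

theorem dM_mono {V : Type} (G : OG V) {w : V → ℝ} (hw : ∀ v, 0 ≤ w v) {A' A B' B : Finset V}
    (h : A' ⊆ A) (h' : B' ⊆ B) : dM G w A' B' ≤ dM G w A B := by
  unfold dM
  have hterm : ∀ u v, 0 ≤ w u * w v * nn G u v := fun u v =>
    mul_nonneg (mul_nonneg (hw u) (hw v)) (nn_nonneg G u v)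
  calc ∑ u ∈ A', ∑ v ∈ B', w u * w v * nn G u v
      ≤ ∑ u ∈ A', ∑ v ∈ B, w u * w v * nn G u v :=
        sum_le_sum fun u _ => sum_le_sum_of_subset_of_nonneg h' fun v _ _ => hterm u v
    _ ≤ ∑ u ∈ A, ∑ v ∈ B, w u * w v * nn G u v :=
        sum_le_sum_of_subset_of_nonneg h fun u _ _ => sum_nonneg fun v _ => hterm u v

open Classical in
/-- the out-degree into the complement of a subset -/
theorem yo_split {V : Type} (G : OG V) {w : V → ℝ} (hw : ∀ v, 0 ≤ w v) (B : Finset V)
    (q : V → Prop) (a : V) :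
    yo G w B a - ∑ v ∈ B.filter q, w v ≤ yo G w (B.filter (fun v => ¬ q v)) a := by
  unfold yo
  have h1 := sum_filter_add_sum_filter_not B q (fun u => w u * o G a u)
  have h2 : ∑ u ∈ B.filter q, w u * o G a u ≤ ∑ u ∈ B.filter q, w u :=
    sum_le_sum fun u _ => mul_le_of_le_one_right (hw u) (o_le_one G a u)
  linarith

theorem th (h : S_R2) : S_TH := by
  classical
  intro V _ G w hC hw A B τ hAB hτ hsm s t hs ht
  by_contra hcon
  rw [not_or, not_le, not_le] at hcon
  obtain ⟨h1, h2⟩ := hcon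
  set A' : Finset V := A.filter (fun a => ¬ yo G w B a < s) with hA'
  set B' : Finset V := B.filter (fun v => ¬ yo G w A v < t) with hB'
  have hA'A : A' ⊆ A := filter_subset _ _
  have hB'B : B' ⊆ B := filter_subset _ _
  have k1 : ∀ a ∈ A', τ ≤ yo G w B' a := by
    intro a ha
    have h3 := yo_split G hw B (fun v => yo G w A v < t) a
    have h4 := (mem_filter.1 ha).2
    rw [not_lt] at h4
    rw [hB']
    linarith
  have k2 : ∀ v ∈ B', τ ≤ yo G w A' v := by
    intro v hv
    have h3 := yo_split G hw A (fun a => yo G w B a < s) v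
    have h4 := (mem_filter.1 hv).2
    rw [not_lt] at h4
    rw [hA']
    linarith
  have hne : A'.Nonempty := by
    rw [nonempty_iff_ne_empty]
    intro h0
    have h3 := sum_filter_add_sum_filter_not A (fun a => yo G w B a < s) w
    rw [← hA', h0, sum_empty, add_zero] at h3
    linarith
  have h5 := h V G w hC hw A' B' τ (disjoint_of_subset_left hA'A (disjoint_of_subset_right hB'B hAB))
    hne hτ k1 k2
  have h6 := dI_mono G hw hA'A
  have h7 := dI_mono G hw hB'B
  have h8 := dM_mono G hw hA'A hB'B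
  linarith

end Pool.Agent.W327.FF
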